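import Pool.Agent.helper83.SC.Stmt

/-!
Schneider project in all dimensions, module HS1: Hessians of smooth convex functions.
-/

open scoped Pointwise ContDiff
open MeasureTheory Set Filter Topology

namespace Pool.Agent.helper83.SC

theorem HS1_smooth {m : ℕ} {f : E m → ℝ} (hf : ContDiff ℝ ∞ f) (i : Fin m) :
    ContDiff ℝ ∞ (pd i f) :=
  (hf.fderiv_right (m := ∞) (by simp)).clm_apply contDiff_const

theorem HS1_dd {m : ℕ} {f : E m → ℝ} (hf : ContDiff ℝ ∞ f) (i j : Fin m) (x : E m) :
    pd i (pd j f) x = fderiv ℝ (fderiv ℝ f) x (e i) (e j) := by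
  have h1 : DifferentiableAt ℝ (fderiv ℝ f) x :=
    (hf.fderiv_right (m := ∞) (by simp)).differentiable (by simp) x
  have h2 : pd j f = fun y => fderiv ℝ f y (e j) := rfl
  unfold pd
  rw [fderiv_clm_apply h1 (differentiableAt_const (e j))]
  simp

theorem HS1_symm {m : ℕ} {f : E m → ℝ} (hf : ContDiff ℝ ∞ f) (x v w : E m) :
    fderiv ℝ (fderiv ℝ f) x v w = fderiv ℝ (fderiv ℝ f) x w v := by
  have h : IsSymmSndFDerivAt ℝ f x := by
    apply (hf.contDiffAt).isSymmSndFDerivAt
    rw [minSmoothness_of_isRCLikeNormedField]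
    exact WithTop.coe_le_coe.2 le_top
  exact h.eq v w

theorem HS1_nonneg {m : ℕ} {f : E m → ℝ} (hf : ContDiff ℝ ∞ f) (hc : CV f) (x v : E m) :
    0 ≤ fderiv ℝ (fderiv ℝ f) x v v := by
  have hgd : ∀ t : ℝ, HasDerivAt (fun t : ℝ => f (x + t • v)) (fderiv ℝ f (x + t • v) v) t := by
    intro t
    have h1 : HasFDerivAt f (fderiv ℝ f (x + t • v)) (x + t • v) :=
      (hf.differentiable (by simp) _).hasFDerivAt
    have h2 : HasDerivAt (fun t : ℝ => x + t • v) v t := by
      simpa using ((hasDerivAt_id t).smul_const v).const_add x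
    exact h1.comp_hasDerivAt t h2
  have hconv : ConvexOn ℝ univ (fun t : ℝ => f (x + t • v)) := by
    refine ⟨convex_univ, ?_⟩
    intro s hs t ht a b ha hb hab
    have h1 := hc.2 (mem_univ (x + s • v)) (mem_univ (x + t • v)) ha hb hab
    have h2 : a • (x + s • v) + b • (x + t • v) = x + (a • s + b • t) • v := by
      have h3 : x = a • x + b • x := by rw [← add_smul, hab, one_smul]
      conv_rhs => rw [h3]
      simp only [smul_add, smul_smul, add_smul, smul_eq_mul]
      abel
    rw [h2] at h1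
    exact h1
  have hmono := hconv.monotoneOn_deriv (fun t _ => (hgd t).differentiableAt)
  have hderiv : deriv (fun t : ℝ => f (x + t • v)) = fun t => fderiv ℝ f (x + t • v) v := by
    funext t
    exact (hgd t).deriv
  rw [hderiv] at hmono
  have hd2 : HasDerivAt (fun t : ℝ => fderiv ℝ f (x + t • v) v)
      (fderiv ℝ (fderiv ℝ f) x v v) 0 := by
    have h1 : HasFDerivAt (fderiv ℝ f) (fderiv ℝ (fderiv ℝ f) (x + (0 : ℝ) • v))
        (x + (0 : ℝ) • v) :=
      ((hf.fderiv_right (m := ∞) (by simp)).differentiable (by simp) _).hasFDerivAt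
    have h2 : HasDerivAt (fun t : ℝ => x + t • v) v 0 := by
      simpa using ((hasDerivAt_id (0 : ℝ)).smul_const v).const_add x
    have h3 := h1.comp_hasDerivAt (0 : ℝ) h2
    have h4 := h3.clm_apply (hasDerivAt_const (0 : ℝ) v)
    simpa using h4
  have h5 : derivWithin (fun t : ℝ => fderiv ℝ f (x + t • v) v) univ 0
      = fderiv ℝ (fderiv ℝ f) x v v :=
    hd2.hasDerivWithinAt.derivWithin uniqueDiffWithinAt_univ
  rw [← h5]
  exact hmono.derivWithin_nonneg

theorem HS1_sum {m : ℕ} (v : E m) : ∑ i, v i • (e i : E m) = v := by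
  have h := (EuclideanSpace.basisFun (Fin m) ℝ).sum_repr v
  simpa [e] using h

theorem hess_psd_of : hess_psd_stmt := by
  intro m f hf hc x
  have hsym : (hess f x).IsHermitian := by
    ext i j
    simp only [hess, Matrix.conjTranspose_apply, Matrix.of_apply, star_trivial]
    rw [HS1_dd hf, HS1_dd hf, HS1_symm hf]
  refine Matrix.PosSemidef.of_dotProduct_mulVec_nonneg hsym ?_
  intro v
  have h := HS1_nonneg hf hc x (WithLp.toLp 2 v)
  have h1 : (WithLp.toLp 2 v : E m) = ∑ i, v i • (e i : E m) := (HS1_sum (WithLp.toLp 2 v)).symm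
  rw [h1] at h
  simp only [map_sum, map_smul, FunLike.coe_sum, FunLike.coe_smul, Finset.sum_apply, 
      Pi.smul_apply, smul_eq_mul] at h
  simp only [dotProduct, Matrix.mulVec, hess, Matrix.of_apply, star_trivial, Pi.star_apply]
  have h2 : ∀ i j, pd i (pd j f) x = fderiv ℝ (fderiv ℝ f) x (e i) (e j) := fun i j => HS1_dd hf i j x
  simp only [h2]
  refine h.trans_eq ?_
  simp only [Finset.mul_sum]
  rw [Finset.sum_comm]
  refine Finset.sum_congr rfl fun i _ => Finset.sum_congr rfl fun j _ => ?_
  ring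

theorem continuous_hess_of : continuous_hess_stmt := by
  intro m f hf
  refine continuous_matrix fun i j => ?_
  exact (HS1_smooth (HS1_smooth hf j) i).continuous

theorem trace_hess_of : trace_hess_stmt := by
  intro m f x
  rfl

end Pool.Agent.helper83.SC
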