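import Pool.Agent.helper83.SC.Stmt

/-!
Schneider project in all dimensions, module HS2: rules for Hessians.
-/

open scoped Pointwise ContDiff
open MeasureTheory Set Filter Topology

namespace Pool.Agent.helper83.SC

theorem HS2_smooth {m : ℕ} {f : E m → ℝ} (hf : ContDiff ℝ ∞ f) (i : Fin m) :
    ContDiff ℝ ∞ (pd i f) :=
  (hf.fderiv_right (m := ∞) (by simp)).clm_apply contDiff_const

theorem HS2_pd_add {m : ℕ} {f g : E m → ℝ} (hf : ContDiff ℝ ∞ f) (hg : ContDiff ℝ ∞ g)
    (i : Fin m) : pd i (fun y => f y + g y) = fun y => pd i f y + pd i g y := by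
  funext y
  unfold pd
  rw [fderiv_fun_add ((hf.differentiable (by simp)) y) ((hg.differentiable (by simp)) y)]
  simp

theorem HS2_pd_smul {m : ℕ} {f : E m → ℝ} (hf : ContDiff ℝ ∞ f) (c : ℝ)
    (i : Fin m) : pd i (fun y => c * f y) = fun y => c * pd i f y := by
  funext y
  unfold pd
  rw [fderiv_const_mul ((hf.differentiable (by simp)) y)]
  simp

theorem hess_add_of : hess_add_stmt := by
  intro m f g hf hg x
  ext i j
  simp only [hess, Matrix.of_apply, Matrix.add_apply]
  rw [HS2_pd_add hf hg, HS2_pd_add (HS2_smooth hf j) (HS2_smooth hg j)]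

theorem hess_smul_of : hess_smul_stmt := by
  intro m f hf c x
  ext i j
  simp only [hess, Matrix.of_apply, Matrix.smul_apply, smul_eq_mul]
  rw [HS2_pd_smul hf, HS2_pd_smul (HS2_smooth hf j)]

theorem hess_sum_of : hess_sum_stmt := by
  classical
  intro m ι s f hf x
  induction s using Finset.induction_on with
  | empty =>
    have h0 : ∀ j : Fin m, pd j (fun _ : E m => (0 : ℝ)) = fun _ => 0 := by
      intro j
      funext y
      simp [pd]
    ext i j
    simp [hess, h0]
  | insert a s ha ih =>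
    simp only [Finset.sum_insert ha]
    rw [← ih]
    exact hess_add_of (hf a) (ContDiff.sum fun i _ => hf i) x

theorem HS2_e_apply {m : ℕ} (i j : Fin m) : (e i : E m) j = if j = i then 1 else 0 := by
  simp [e]

theorem HS2_norm {V : Type*} [NormedAddCommGroup V] [InnerProductSpace ℝ V] (c : ℝ) (y v : V) :
    fderiv ℝ (fun y : V => c * ‖y‖ ^ 2 / 2) y v = c * inner ℝ y v := by
  have h0 := (hasStrictFDerivAt_norm_sq y).hasFDerivAt.const_mul (c / 2)
  have h1 : (fun y : V => c * ‖y‖ ^ 2 / 2) = fun y => c / 2 * ‖y‖ ^ 2 := by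
    funext z
    ring
  rw [h1, h0.fderiv]
  simp
  ring

theorem HS2_sq {V : Type*} [NormedAddCommGroup V] [InnerProductSpace ℝ V] (l y v : V) :
    fderiv ℝ (fun y : V => (inner ℝ l y : ℝ) ^ 2 / 2) y v = inner ℝ l v * inner ℝ l y := by
  have h0 : HasFDerivAt (fun y : V => (inner ℝ l y : ℝ)) (innerSL ℝ l) y :=
    (innerSL ℝ l).hasFDerivAt
  have h3 := (h0.pow 2).const_mul (1 / 2 : ℝ)
  have h1 : (fun y : V => (inner ℝ l y : ℝ) ^ 2 / 2) = fun y => 1 / 2 * (inner ℝ l y : ℝ) ^ 2 := by
    funext z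
    ring
  rw [h1, h3.fderiv]
  simp
  ring

theorem HS2_lin {V : Type*} [NormedAddCommGroup V] [InnerProductSpace ℝ V] (c : ℝ) (l y v : V) :
    fderiv ℝ (fun y : V => c * (inner ℝ l y : ℝ)) y v = c * inner ℝ l v := by
  have h0 : HasFDerivAt (fun y : V => (inner ℝ l y : ℝ)) (innerSL ℝ l) y :=
    (innerSL ℝ l).hasFDerivAt
  rw [(h0.const_mul c).fderiv]
  simp

theorem HS2_inner {m : ℕ} (y : E m) (j : Fin m) : (inner ℝ y (e j : E m) : ℝ) = y j := by
  simp [e, EuclideanSpace.inner_single_right]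

theorem HS2_inner' {m : ℕ} (y : E m) (j : Fin m) : (inner ℝ (e j : E m) y : ℝ) = y j := by
  simp [e, EuclideanSpace.inner_single_left]

theorem hess_normSq_of : hess_normSq_stmt := by
  intro m c x
  have h1 : ∀ j : Fin m, pd j (fun y : E m => c * ‖y‖ ^ 2 / 2) = fun y => c * inner ℝ (e j) y := by
    intro j
    funext y
    unfold pd
    rw [HS2_norm, HS2_inner, HS2_inner']
  ext i j
  simp only [hess, Matrix.of_apply, Matrix.smul_apply, smul_eq_mul]
  rw [h1]
  unfold pd
  rw [HS2_lin, HS2_inner', HS2_e_apply, Matrix.one_apply]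
  by_cases hij : i = j
  · simp [hij]
  · have : ¬ j = i := fun h => hij h.symm
    simp [hij, this]

theorem hess_rank_one_of : hess_rank_one_stmt := by
  intro m l x
  have h1 : ∀ j : Fin m, pd j (fun y : E m => (inner ℝ l y) ^ 2 / 2)
      = fun y => l j * inner ℝ l y := by
    intro j
    funext y
    unfold pd
    rw [HS2_sq, HS2_inner]
  ext i j
  simp only [hess, Matrix.of_apply, Matrix.vecMulVec_apply]
  rw [h1]
  unfold pd
  rw [HS2_lin, HS2_inner]
  ring

end Pool.Agent.helper83.SC
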