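import Pool.Agent.helper83.SC.Stmt

/-!
Schneider project in all dimensions, module AL4: the Alexandrov measure of a smooth convex
function.
-/

open scoped Pointwise ContDiff
open MeasureTheory Set Filter Topology

namespace Pool.Agent.helper83.SC

theorem A_smooth_of (h1 : alexandrov_smooth_stmt) (h2 : tendsto_A_stmt) (h3 : hess_add_stmt)
    (h4 : hess_normSq_stmt) (h5 : continuous_hess_stmt) : A_smooth_stmt := by
  intro m φ h hφ hh hc
  have hsm : ∀ c : ℝ, ContDiff ℝ ∞ (fun y : E m => c * ‖y‖ ^ 2 / 2) := by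
    intro c
    exact (contDiff_const.mul (contDiff_norm_sq ℝ)).div_const 2
  -- the approximations
  set c : ℕ → ℝ := fun k => 1 / ((k : ℝ) + 1) with hcdef
  have hcpos : ∀ k, 0 < c k := fun k => by positivity
  have hclim : Tendsto c atTop (𝓝 0) := tendsto_one_div_add_atTop_nhds_zero_nat
  set g : ℕ → E m → ℝ := fun k y => h y + c k * ‖y‖ ^ 2 / 2 with hgdef
  have hsq : ∀ c : ℝ, 0 ≤ c → CV (fun y : E m => c * ‖y‖ ^ 2 / 2) := by
    intro c hc
    have h0 : ConvexOn ℝ univ (fun y : E m => ‖y‖ ^ 2) :=
      (convexOn_norm convex_univ).pow (fun _ _ => norm_nonneg _) 2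
    have h6 := h0.smul (c := c / 2) (by positivity)
    refine h6.congr fun y _ => ?_
    simp only [smul_eq_mul]
    ring
  have hgcv : ∀ k, CV (g k) := fun k => hc.add (hsq (c k) (hcpos k).le)
  have hglim : ∀ x, Tendsto (fun k => g k x) atTop (𝓝 (h x)) := by
    intro x
    have h6 : Tendsto (fun k => h x + c k * ‖x‖ ^ 2 / 2) atTop (𝓝 (h x + 0 * ‖x‖ ^ 2 / 2)) :=
      tendsto_const_nhds.add ((hclim.mul_const _).div_const _)
    simpa using h6
  have hA : ∀ k, A φ (g k) = ∫ x, φ x * (hess h x + c k • (1 : Matrix (Fin m) (Fin m) ℝ)).det := by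
    intro k
    have h6 := (h1 (h := g k) hφ (hh.add (hsm (c k))) (c := c k / 2) (by
      have := hcpos k
      positivity) ?_).2.2
    · rw [h6]
      refine integral_congr_ae (Eventually.of_forall fun x => ?_)
      simp only [hgdef]
      rw [h3 hh (hsm (c k)), h4]
    · refine hc.congr fun y _ => ?_
      simp only [hgdef]
      ring
  have hlim1 := h2 hφ hc hgcv hglim
  have hcont : Continuous (fun t : ℝ => ∫ x in tsupport φ,
      φ x * (hess h x + t • (1 : Matrix (Fin m) (Fin m) ℝ)).det) := by
    refine continuous_parametric_integral_of_continuous ?_ hφ.2.1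
    refine (hφ.1.continuous.comp continuous_snd).mul ?_
    refine Continuous.matrix_det ?_
    exact ((h5 hh).comp continuous_snd).add (continuous_fst.smul continuous_const)
  have hset : ∀ t : ℝ, ∫ x in tsupport φ,
      φ x * (hess h x + t • (1 : Matrix (Fin m) (Fin m) ℝ)).det
      = ∫ x, φ x * (hess h x + t • (1 : Matrix (Fin m) (Fin m) ℝ)).det := by
    intro t
    refine setIntegral_eq_integral_of_forall_compl_eq_zero fun x hx => ?_
    rw [image_eq_zero_of_notMem_tsupport hx, zero_mul]
  have hlim2 := (hcont.tendsto 0).comp hclim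
  have hlim3 : Tendsto (fun k => A φ (g k)) atTop (𝓝 (∫ x, φ x * (hess h x).det)) := by
    have h7 : (fun k => A φ (g k)) = (fun t : ℝ => ∫ x in tsupport φ,
      φ x * (hess h x + t • (1 : Matrix (Fin m) (Fin m) ℝ)).det) ∘ c := by
      funext k
      simp only [Function.comp_apply]
      rw [hA, hset]
    rw [h7]
    have h8 : (∫ x, φ x * (hess h x).det) = ∫ x in tsupport φ,
      φ x * (hess h x + (0 : ℝ) • (1 : Matrix (Fin m) (Fin m) ℝ)).det := by
      rw [hset 0]
      simp
    rw [h8]
    exact hlim2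
  exact tendsto_nhds_unique hlim1 hlim3

end Pool.Agent.helper83.SC
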